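import Pool.Agent.helper66.LIN.Spec

/-!
Row lin:NSG. The new front.
-/

set_option autoImplicit false

namespace LSH.Lin

theorem NSG_avs {P : Finset Pt} {L : Multiset (Pt × BT)} {σ : ℝ → ℝ} {u : Pt} {up : Bool} {c : ℝ}
    {p : Pt} (h : p ∈ avs P L σ u up c) : p ∈ P ∧ σ p.2 < p.1 ∧ p.1 ≤ c ∧ Vis L u p.2 := by
  classical
  unfold avs at h
  rw [Finset.mem_filter] at h
  exact ⟨h.1, h.2.1, h.2.2.1, h.2.2.2.1⟩

theorem NSG (hGTF : GTF_stmt) : NSG_stmt := by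
  classical
  intro P L₀ σ X u t up x₁ q G S
  obtain ⟨-, -, hpend, -⟩ := hGTF
  have hav : ∀ i ∈ G.pend, i.1 ∈ P ∧ σ i.1.2 < i.1.1 ∧ i.1.1 ≤ x₁ ∧ Vis ((u, t) ::ₘ L₀) u i.1.2 := by
    intro i hi
    exact NSG_avs (S.gad.pts i.1 (hpend G i hi))
  have h1 : ∀ i ∈ G.pend, nsig ((u, t) ::ₘ L₀) σ u x₁ G.pend i.1.2 = i.1.1 := by
    intro i hi
    have hex : ∃ j ∈ G.pend, j.1.2 = i.1.2 := ⟨i, hi, rfl⟩
    have hs := Classical.choose_spec hex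
    have he : nsig ((u, t) ::ₘ L₀) σ u x₁ G.pend i.1.2 = (Classical.choose hex).1.1 := by
      unfold nsig
      rw [dif_pos hex]
    rw [he]
    by_contra hne
    have hne2 : (Classical.choose hex).1 ≠ i.1 := fun h => hne (by rw [h])
    have hg := S.cfg.gen _ (hav _ hs.1).1 _ (hav i hi).1 hne2
    exact hg.2 hs.2
  have h2 : ∀ y, Vis ((u, t) ::ₘ L₀) u y → (∀ i ∈ G.pend, i.1.2 ≠ y) →
      nsig ((u, t) ::ₘ L₀) σ u x₁ G.pend y = x₁ := by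
    intro y hy hn
    have hex : ¬ ∃ j ∈ G.pend, j.1.2 = y := by
      rintro ⟨j, hj, he⟩
      exact hn j hj he
    unfold nsig
    rw [dif_neg hex, if_pos hy]
  have h3 : ∀ y, ¬ Vis ((u, t) ::ₘ L₀) u y →
      nsig ((u, t) ::ₘ L₀) σ u x₁ G.pend y = σ y := by
    intro y hy
    have hex : ¬ ∃ j ∈ G.pend, j.1.2 = y := by
      rintro ⟨j, hj, he⟩
      exact hy (he ▸ (hav j hj).2.2.2)
    unfold nsig
    rw [dif_neg hex, if_neg hy]
  refine ⟨h1, h2, h3, ?_⟩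
  intro y
  have hlt := S.ch.lt
  have hsw := S.cfg.sweep y
  by_cases hy : Vis ((u, t) ::ₘ L₀) u y
  · by_cases hex : ∃ j ∈ G.pend, j.1.2 = y
    · obtain ⟨j, hj, he⟩ := hex
      have e1 := h1 j hj
      have a1 := hav j hj
      rw [he] at e1 a1
      rw [e1]
      exact ⟨a1.2.1.le, a1.2.2.1⟩
    · rw [h2 y hy (fun i hi he => hex ⟨i, hi, he⟩)]
      exact ⟨by linarith, le_refl _⟩
  · rw [h3 y hy]
    exact ⟨le_refl _, by linarith⟩

end LSH.Lin
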